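import Pool.Agent.helper97.KR.Spec

/-! Row `kr:INT` (MP_974a61_co). -/

set_option autoImplicit false

namespace Pool.Agent.helper97.KR

open Finset Classical

noncomputable section

/-- the interleaved sequence -/
def INT_e {E : Type} (m n : ℤ) (c d : ℤ → E) (j : ℤ) : E :=
  if j % (m + n) < m then c (j / (m + n) * m + j % (m + n))
  else d (j / (m + n) * n + (j % (m + n) - m))

theorem INT_dm {m n : ℤ} (hm : 1 ≤ m) (hn : 1 ≤ n) (q s : ℤ) (h0 : 0 ≤ s) (h1 : s < m + n) :
    (q * (m + n) + s) / (m + n) = q ∧ (q * (m + n) + s) % (m + n) = s := by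
  have hne : m + n ≠ 0 := by omega
  constructor
  · rw [Int.add_comm, Int.add_mul_ediv_right _ _ hne, Int.ediv_eq_zero_of_lt h0 h1, zero_add]
  · rw [Int.add_comm, Int.add_mul_emod_self_right, Int.emod_eq_of_lt h0 h1]

theorem INT_c {E : Type} {m n : ℤ} {c d : ℤ → E} (hm : 1 ≤ m) (hn : 1 ≤ n) (q s : ℤ) (h0 : 0 ≤ s)
    (h1 : s < m) : INT_e m n c d (q * (m + n) + s) = c (q * m + s) := by
  obtain ⟨e1, e2⟩ := INT_dm hm hn q s h0 (by omega)
  rw [INT_e, e1, e2, if_pos h1]

theorem INT_d {E : Type} {m n : ℤ} {c d : ℤ → E} (hm : 1 ≤ m) (hn : 1 ≤ n) (q s : ℤ) (h0 : m ≤ s)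
    (h1 : s < m + n) : INT_e m n c d (q * (m + n) + s) = d (q * n + (s - m)) := by
  obtain ⟨e1, e2⟩ := INT_dm hm hn q s (by omega) h1
  rw [INT_e, e1, e2, if_neg (by omega)]

theorem INT_w {m n : ℤ} (hm : 1 ≤ m) (hn : 1 ≤ n) (j : ℤ) :
    ∃ q s : ℤ, j = q * (m + n) + s ∧ 0 ≤ s ∧ s < m + n := by
  refine ⟨j / (m + n), j % (m + n), ?_, Int.emod_nonneg _ (by omega), Int.emod_lt_of_pos _ (by omega)⟩
  rw [mul_comm]
  exact (Int.mul_ediv_add_emod j (m + n)).symm

theorem INT_q {m : ℤ} (hm : 1 ≤ m) (i : ℤ) : ∃ q s : ℤ, i = q * m + s ∧ 0 ≤ s ∧ s < m := by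
  refine ⟨i / m, i % m, ?_, Int.emod_nonneg _ (by omega), Int.emod_lt_of_pos _ (by omega)⟩
  rw [mul_comm]
  exact (Int.mul_ediv_add_emod i m).symm

/-- the quotient of an element of `[0, 3 m)` -/
theorem INT_r {m q s : ℤ} (hm : 1 ≤ m) (h0 : 0 ≤ s) (h1 : s < m) (h2 : 0 ≤ q * m + s)
    (h3 : q * m + s < 3 * m) : 0 ≤ q ∧ q ≤ 2 := by
  constructor
  · by_contra hc
    nlinarith
  · by_contra hc
    nlinarith

theorem INT_u {m q s q' s' : ℤ} (hm : 1 ≤ m) (h0 : 0 ≤ s) (h1 : s < m) (h0' : 0 ≤ s') (h1' : s' < m)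
    (h : q * m + s = q' * m + s') : q = q' ∧ s = s' := by
  have hq : q = q' := by
    rcases lt_trichotomy q q' with h2 | h2 | h2
    · nlinarith
    · exact h2
    · nlinarith
  subst hq
  exact ⟨rfl, by omega⟩

theorem INT : INT_stmt := by
  intro E m n c d A B hm hn hc hd hA hB hdis
  refine ⟨INT_e m n c d, ?_, ⟨?_, ?_, ?_⟩, ?_⟩
  · intro j
    obtain ⟨q, s, rfl, h0, h1⟩ := INT_w hm hn j
    have e1 : q * (m + n) + s + 3 * (m + n) = (q + 3) * (m + n) + s := by ring
    rw [e1]
    rcases lt_or_ge s m with h | h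
    · rw [INT_c hm hn _ _ h0 h, INT_c hm hn _ _ h0 h, ← hc (q * m + s)]
      congr 1
      ring
    · rw [INT_d hm hn _ _ h h1, INT_d hm hn _ _ h h1, ← hd (q * n + (s - m))]
      congr 1
      ring
  · intro j hj
    rw [Set.mem_Ico] at hj
    obtain ⟨q, s, rfl, h0, h1⟩ := INT_w hm hn j
    obtain ⟨q0, q2⟩ := INT_r (by omega : 1 ≤ m + n) h0 h1 hj.1 hj.2
    rcases lt_or_ge s m with h | h
    · rw [INT_c hm hn _ _ h0 h]
      refine Or.inl (hA.mapsTo ?_)
      rw [Set.mem_Ico]
      constructor <;> nlinarith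
    · rw [INT_d hm hn _ _ h h1]
      refine Or.inr (hB.mapsTo ?_)
      rw [Set.mem_Ico]
      constructor <;> nlinarith
  · intro j hj j' hj' hjj
    rw [Set.mem_Ico] at hj hj'
    obtain ⟨q, s, rfl, h0, h1⟩ := INT_w hm hn j
    obtain ⟨q', s', rfl, h0', h1'⟩ := INT_w hm hn j'
    obtain ⟨q0, q2⟩ := INT_r (by omega : 1 ≤ m + n) h0 h1 hj.1 hj.2
    obtain ⟨q0', q2'⟩ := INT_r (by omega : 1 ≤ m + n) h0' h1' hj'.1 hj'.2
    have ma : ∀ q s : ℤ, 0 ≤ q → q ≤ 2 → 0 ≤ s → s < m → q * m + s ∈ Set.Ico 0 (3 * m) := by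
      intro q s a1 a2 a3 a4
      rw [Set.mem_Ico]
      constructor <;> nlinarith
    have mb : ∀ q s : ℤ, 0 ≤ q → q ≤ 2 → m ≤ s → s < m + n →
        q * n + (s - m) ∈ Set.Ico 0 (3 * n) := by
      intro q s a1 a2 a3 a4
      rw [Set.mem_Ico]
      constructor <;> nlinarith
    rcases lt_or_ge s m with h | h <;> rcases lt_or_ge s' m with h' | h'
    · rw [INT_c hm hn _ _ h0 h, INT_c hm hn _ _ h0' h'] at hjj
      have := hA.injOn (ma q s q0 q2 h0 h) (ma q' s' q0' q2' h0' h') hjj
      obtain ⟨rfl, rfl⟩ := INT_u hm h0 h h0' h' this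
      rfl
    · rw [INT_c hm hn _ _ h0 h, INT_d hm hn _ _ h' h1'] at hjj
      have a1 := hA.mapsTo (ma q s q0 q2 h0 h)
      have b1 := hB.mapsTo (mb q' s' q0' q2' h' h1')
      rw [hjj] at a1
      exact absurd b1 (Set.disjoint_left.mp hdis a1)
    · rw [INT_d hm hn _ _ h h1, INT_c hm hn _ _ h0' h'] at hjj
      have a1 := hA.mapsTo (ma q' s' q0' q2' h0' h')
      have b1 := hB.mapsTo (mb q s q0 q2 h h1)
      rw [hjj] at b1
      exact absurd b1 (Set.disjoint_left.mp hdis a1)
    · rw [INT_d hm hn _ _ h h1, INT_d hm hn _ _ h' h1'] at hjj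
      have := hB.injOn (mb q s q0 q2 h h1) (mb q' s' q0' q2' h' h1') hjj
      obtain ⟨rfl, h2⟩ := INT_u hn (by omega : 0 ≤ s - m) (by omega) (by omega : 0 ≤ s' - m)
        (by omega) this
      have : s = s' := by omega
      rw [this]
  · rintro x (hx | hx)
    · obtain ⟨i, hi, rfl⟩ := hA.surjOn hx
      rw [Set.mem_Ico] at hi
      obtain ⟨q, s, rfl, h0, h1⟩ := INT_q hm i
      obtain ⟨q0, q2⟩ := INT_r hm h0 h1 hi.1 hi.2
      refine ⟨q * (m + n) + s, ?_, INT_c hm hn q s h0 h1⟩
      rw [Set.mem_Ico]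
      constructor <;> nlinarith
    · obtain ⟨i, hi, rfl⟩ := hB.surjOn hx
      rw [Set.mem_Ico] at hi
      obtain ⟨q, s, rfl, h0, h1⟩ := INT_q hn i
      obtain ⟨q0, q2⟩ := INT_r hn h0 h1 hi.1 hi.2
      refine ⟨q * (m + n) + (s + m), ?_, ?_⟩
      · rw [Set.mem_Ico]
        constructor <;> nlinarith
      · rw [INT_d hm hn q (s + m) (by omega) (by omega), add_sub_cancel_right]
  · intro j
    obtain ⟨q, s, rfl, h0, h1⟩ := INT_w hm hn j
    rcases le_or_gt s m with h | h
    · refine ⟨q * m + s, q * n, ?_⟩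
      ext x
      constructor
      · rintro ⟨t, ht, rfl⟩
        rw [Set.mem_Ico] at ht
        obtain ⟨u, hu⟩ : ∃ u, t = q * (m + n) + u := ⟨t - q * (m + n), by ring⟩
        have hu1 : s ≤ u := by linarith [ht.1]
        have hu2 : u < s + (m + n) := by linarith [ht.2]
        rcases lt_or_ge u (m + n) with h2 | h2
        · rcases lt_or_ge u m with h3 | h3
          · left
            refine ⟨q * m + u, ?_, ?_⟩
            · rw [Set.mem_Ico]; constructor <;> linarith
            · rw [hu, INT_c hm hn q u (by omega) h3]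
          · right
            refine ⟨q * n + (u - m), ?_, ?_⟩
            · rw [Set.mem_Ico]; constructor <;> linarith
            · rw [hu, INT_d hm hn q u h3 h2]
        · left
          have e1 : t = (q + 1) * (m + n) + (u - (m + n)) := by rw [hu]; ring
          refine ⟨(q + 1) * m + (u - (m + n)), ?_, ?_⟩
          · rw [Set.mem_Ico, add_mul, one_mul]; constructor <;> linarith
          · rw [e1, INT_c hm hn (q + 1) (u - (m + n)) (by omega) (by omega)]
      · rintro (⟨i, hi, rfl⟩ | ⟨i, hi, rfl⟩)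
        · rw [Set.mem_Ico] at hi
          obtain ⟨u, hu⟩ : ∃ u, i = q * m + u := ⟨i - q * m, by ring⟩
          have hu1 : s ≤ u := by linarith [hi.1]
          have hu2 : u < s + m := by linarith [hi.2]
          rcases lt_or_ge u m with h3 | h3
          · refine ⟨q * (m + n) + u, ?_, ?_⟩
            · rw [Set.mem_Ico]; constructor <;> linarith
            · rw [INT_c hm hn q u (by omega) h3, hu]
          · refine ⟨(q + 1) * (m + n) + (u - m), ?_, ?_⟩
            · rw [Set.mem_Ico, add_mul, one_mul]; constructor <;> linarith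
            · rw [INT_c hm hn (q + 1) (u - m) (by omega) (by omega), hu]
              congr 1
              ring
        · rw [Set.mem_Ico] at hi
          obtain ⟨u, hu⟩ : ∃ u, i = q * n + u := ⟨i - q * n, by ring⟩
          have hu1 : 0 ≤ u := by linarith [hi.1]
          have hu2 : u < n := by linarith [hi.2]
          refine ⟨q * (m + n) + (u + m), ?_, ?_⟩
          · rw [Set.mem_Ico]; constructor <;> linarith
          · rw [INT_d hm hn q (u + m) (by omega) (by omega), hu, add_sub_cancel_right]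
    · refine ⟨(q + 1) * m, q * n + (s - m), ?_⟩
      ext x
      constructor
      · rintro ⟨t, ht, rfl⟩
        rw [Set.mem_Ico] at ht
        obtain ⟨u, hu⟩ : ∃ u, t = q * (m + n) + u := ⟨t - q * (m + n), by ring⟩
        have hu1 : s ≤ u := by linarith [ht.1]
        have hu2 : u < s + (m + n) := by linarith [ht.2]
        rcases lt_or_ge u (m + n) with h2 | h2
        · right
          refine ⟨q * n + (u - m), ?_, ?_⟩
          · rw [Set.mem_Ico]; constructor <;> linarith
          · rw [hu, INT_d hm hn q u (by omega) h2]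
        · have e1 : t = (q + 1) * (m + n) + (u - (m + n)) := by rw [hu]; ring
          rcases lt_or_ge (u - (m + n)) m with h3 | h3
          · left
            refine ⟨(q + 1) * m + (u - (m + n)), ?_, ?_⟩
            · rw [Set.mem_Ico]; constructor <;> linarith
            · rw [e1, INT_c hm hn (q + 1) (u - (m + n)) (by omega) h3]
          · right
            refine ⟨(q + 1) * n + (u - (m + n) - m), ?_, ?_⟩
            · rw [Set.mem_Ico, add_mul, one_mul]; constructor <;> linarith
            · rw [e1, INT_d hm hn (q + 1) (u - (m + n)) h3 (by omega)]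
      · rintro (⟨i, hi, rfl⟩ | ⟨i, hi, rfl⟩)
        · rw [Set.mem_Ico] at hi
          obtain ⟨u, hu⟩ : ∃ u, i = (q + 1) * m + u := ⟨i - (q + 1) * m, by ring⟩
          have hu1 : 0 ≤ u := by linarith [hi.1]
          have hu2 : u < m := by linarith [hi.2]
          refine ⟨(q + 1) * (m + n) + u, ?_, ?_⟩
          · rw [Set.mem_Ico, add_mul, one_mul]; constructor <;> linarith
          · rw [INT_c hm hn (q + 1) u (by omega) hu2, hu]
        · rw [Set.mem_Ico] at hi
          obtain ⟨u, hu⟩ : ∃ u, i = q * n + u := ⟨i - q * n, by ring⟩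
          have hu1 : s - m ≤ u := by linarith [hi.1]
          have hu2 : u < s - m + n := by linarith [hi.2]
          rcases lt_or_ge u n with h3 | h3
          · refine ⟨q * (m + n) + (u + m), ?_, ?_⟩
            · rw [Set.mem_Ico]; constructor <;> linarith
            · rw [INT_d hm hn q (u + m) (by omega) (by omega), hu, add_sub_cancel_right]
          · refine ⟨(q + 1) * (m + n) + (u - n + m), ?_, ?_⟩
            · rw [Set.mem_Ico, add_mul, one_mul]; constructor <;> linarith
            · rw [INT_d hm hn (q + 1) (u - n + m) (by omega) (by omega), hu]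
              congr 1
              ring

end

end Pool.Agent.helper97.KR
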